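import Mathlib

/-! Closed discrete subspaces of regular strongly star-Hurewicz spaces. -/

namespace Pool.Agent.Results.MP_bbbdfa_lc.Bound

open Set Topology Filter
open Cardinal hiding univ

universe u

/-- the star of `A` with respect to `𝒰` -/
def St {X : Type u} (A : Set X) (𝒰 : Set (Set X)) : Set X :=
  ⋃₀ {U | U ∈ 𝒰 ∧ (U ∩ A).Nonempty}

/-- strongly star-Hurewicz -/
def SSH (X : Type u) [TopologicalSpace X] : Prop :=
  ∀ 𝒰 : ℕ → Set (Set X), (∀ n, (∀ U ∈ 𝒰 n, IsOpen U) ∧ ⋃₀ 𝒰 n = univ) →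
    ∃ F : ℕ → Set X, (∀ n, (F n).Finite) ∧ ∀ x, ∀ᶠ n in atTop, x ∈ St (F n) (𝒰 n)

/-- `F` is bounded under eventual domination -/
def Bdd (F : Set (ℕ → ℕ)) : Prop := ∃ g : ℕ → ℕ, ∀ f ∈ F, ∀ᶠ n in atTop, f n ≤ g n

/-- the bounding number -/
noncomputable def bb : Cardinal.{0} := sInf {c | ∃ F : Set (ℕ → ℕ), ¬ Bdd F ∧ #F = c}

/-- `cof([κ]^ℵ₀)`: least size of a family of countable subsets of `κ` such that every
countable subset of `κ` lies inside a member -/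
noncomputable def cofw (κ : Cardinal.{0}) : Cardinal.{0} :=
  sInf {c | ∃ 𝒞 : Set (Set κ.out), (∀ C ∈ 𝒞, C.Countable) ∧
    (∀ A : Set κ.out, A.Countable → ∃ C ∈ 𝒞, A ⊆ C) ∧ #𝒞 = c}

/-- the cardinal `λ` -/
noncomputable def lam : Cardinal.{0} := sInf {κ | bb ≤ κ ∧ κ ≤ 𝔠 ∧ cofw κ = κ}

theorem bdd_of_countable {F : Set (ℕ → ℕ)} (hF : F.Countable) : Bdd F := by
  obtain ⟨f, hf⟩ := (hF.insert 0).exists_eq_range (insert_nonempty _ _)
  refine ⟨fun n => (Finset.range (n + 1)).sup fun k => f k n, fun g hg => ?_⟩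
  obtain ⟨k, rfl⟩ : g ∈ range f := hf ▸ mem_insert_of_mem _ hg
  filter_upwards [eventually_ge_atTop k] with n hn
  exact Finset.le_sup (f := fun k => f k n) (Finset.mem_range.2 (by omega))

theorem not_bdd_univ : ¬ Bdd univ := by
  rintro ⟨g, hg⟩
  obtain ⟨n, hn⟩ := (hg (fun n => g n + 1) trivial).exists
  omega

theorem bb_spec : ∃ F : Set (ℕ → ℕ), ¬ Bdd F ∧ #F = bb :=
  csInf_mem (s := {c | ∃ F : Set (ℕ → ℕ), ¬ Bdd F ∧ #F = c}) ⟨_, univ, not_bdd_univ, rfl⟩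

theorem aleph0_lt_bb : ℵ₀ < bb := by
  obtain ⟨F, h1, h2⟩ := bb_spec
  rw [← h2]
  by_contra h
  exact h1 (bdd_of_countable (le_aleph0_iff_set_countable.1 (not_lt.1 h)))

theorem bb_le : bb ≤ 𝔠 := by
  have : bb ≤ #(univ : Set (ℕ → ℕ)) := csInf_le' ⟨univ, not_bdd_univ, rfl⟩
  simpa using this

theorem cofw_spec (κ : Cardinal.{0}) : ∃ 𝒞 : Set (Set κ.out), (∀ C ∈ 𝒞, C.Countable) ∧
    (∀ A : Set κ.out, A.Countable → ∃ C ∈ 𝒞, A ⊆ C) ∧ #𝒞 = cofw κ :=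
  csInf_mem (s := {c | ∃ 𝒞 : Set (Set κ.out), (∀ C ∈ 𝒞, C.Countable) ∧
    (∀ A : Set κ.out, A.Countable → ∃ C ∈ 𝒞, A ⊆ C) ∧ #𝒞 = c})
    ⟨_, {C | C.Countable}, fun _ h => h, fun A h => ⟨A, h, Subset.rfl⟩, rfl⟩

theorem cofw_c : cofw 𝔠 = 𝔠 := by
  have : Infinite (𝔠 : Cardinal.{0}).out := by
    rw [infinite_iff, mk_out]; exact aleph0_le_continuum
  apply le_antisymm
  · have h1 : cofw 𝔠 ≤ #{C : Set (𝔠 : Cardinal.{0}).out | C.Countable} :=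
      csInf_le' ⟨{C | C.Countable}, fun _ h => h, fun A h => ⟨A, h, Subset.rfl⟩, rfl⟩
    have h2 := mk_bounded_set_le_of_infinite (𝔠 : Cardinal.{0}).out ℵ₀
    rw [mk_out, continuum_power_aleph0] at h2
    refine h1.trans (le_trans (le_of_eq ?_) h2)
    exact mk_congr (Equiv.subtypeEquivRight fun C => le_aleph0_iff_set_countable.symm)
  · obtain ⟨𝒞, h1, h2, h3⟩ := cofw_spec 𝔠
    have hU : ⋃₀ 𝒞 = univ := eq_univ_of_forall fun x => by
      obtain ⟨C, hC, hx⟩ := h2 {x} (countable_singleton x)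
      exact ⟨C, hC, hx rfl⟩
    have h4 := mk_sUnion_le 𝒞
    rw [hU, mk_univ, mk_out, h3] at h4
    have h5 : ⨆ s : 𝒞, #s.1 ≤ ℵ₀ := ciSup_le' fun s => le_aleph0_iff_set_countable.2 (h1 s s.2)
    by_contra h
    push Not at h
    exact absurd (h4.trans (mul_le_mul_right h5 _))
      (not_le.2 (mul_lt_of_lt aleph0_le_continuum h aleph0_lt_continuum))

theorem lam_spec : bb ≤ lam ∧ lam ≤ 𝔠 ∧ cofw lam = lam :=
  csInf_mem (s := {κ | bb ≤ κ ∧ κ ≤ 𝔠 ∧ cofw κ = κ}) ⟨𝔠, bb_le, le_rfl, cofw_c⟩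

theorem main {X : Type u} [TopologicalSpace X] [T3Space X] (hX : SSH X) {D : Set X}
    (hc : IsClosed D) (hd : IsDiscrete D) {κ : Cardinal.{0}} (hb : bb ≤ κ) (hκ : cofw κ = κ) :
    #D < Cardinal.lift.{u} κ := by
  classical
  by_contra hle
  push Not at hle
  have h0 : ℵ₀ < κ := aleph0_lt_bb.trans_le hb
  obtain ⟨j⟩ : Nonempty (κ.out ↪ D) := by
    rw [← lift_mk_le', mk_out, lift_uzero]; exact hle
  have hV : ∀ d : D, ∃ V, IsOpen V ∧ d.1 ∈ V ∧ ∀ e ∈ D, e ∈ closure V → e = d.1 := by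
    intro d
    obtain ⟨O, hO, hOD⟩ := isDiscrete_iff_forall_mem_exists_isOpen.1 hd d.1 d.2
    have hdO : d.1 ∈ O := (hOD.symm ▸ (rfl : d.1 ∈ ({d.1} : Set X)) : d.1 ∈ O ∩ D).1
    obtain ⟨t, ht, htc, hto⟩ := exists_mem_nhds_isClosed_subset (hO.mem_nhds hdO)
    refine ⟨interior t, isOpen_interior, mem_interior_iff_mem_nhds.2 ht, fun e he h => ?_⟩
    have : e ∈ O ∩ D := ⟨hto (closure_minimal interior_subset htc h), he⟩
    rwa [hOD] at this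
  choose V hVo hVm hVc using hV
  obtain ⟨𝒞, hC1, hC2, hC3⟩ := cofw_spec κ
  obtain ⟨F, hF1, hF2⟩ := bb_spec
  obtain ⟨m⟩ : Nonempty (𝒞 × F × κ.out ↪ κ.out) := by
    rw [← Cardinal.le_def, mk_prod, mk_prod, lift_id, lift_id, lift_id, lift_id, hC3, hκ, hF2, mk_out,
      mul_eq_right h0.le hb (aleph0_pos.trans aleph0_lt_bb).ne', mul_eq_self h0.le]
  have hne : Nonempty κ.out := by
    rw [← mk_ne_zero_iff, mk_out]; exact (aleph0_pos.trans h0).ne'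
  have hen : ∀ C : 𝒞, ∃ c : ℕ → κ.out, C.1 ⊆ range c := fun C =>
    ⟨_, subset_range_enumerate (hC1 C C.2) hne.some⟩
  choose c hcC using hen
  -- the sets removed from `V d` at stage `n`
  let R : ℕ → D → Set X := fun n d =>
    ⋃ p ∈ {p | j (m p) = d}, ⋃ k ∈ {k | k ≤ p.2.1.1 n ∧ c p.1 k ≠ m p}, closure (V (j (c p.1 k)))
  have hR : ∀ n d, IsClosed (R n d) := fun n d =>
    Finite.isClosed_biUnion (Subsingleton.finite fun p hp q hq =>
      m.injective (j.injective (hp.trans hq.symm))) fun p _ =>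
      Finite.isClosed_biUnion ((finite_Iic _).subset fun k hk => hk.1) fun _ _ => isClosed_closure
  have hdR : ∀ n (d : D), d.1 ∉ R n d := by
    intro n d h
    simp only [R, mem_iUnion, mem_ofPred_eq, exists_prop] at h
    obtain ⟨p, hp, k, ⟨-, hk⟩, h⟩ := h
    exact hk (j.injective (hp ▸ Subtype.ext (hVc _ _ d.2 h).symm))
  obtain ⟨G, hG, hSt⟩ := hX (fun n => insert Dᶜ (range fun d => V d \ R n d)) fun n => by
    constructor
    · rintro U (rfl | ⟨d, rfl⟩)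
      · exact hc.isOpen_compl
      · exact (hVo d).sdiff (hR n d)
    · refine eq_univ_of_forall fun x => ?_
      by_cases hx : x ∈ D
      · exact ⟨_, Or.inr ⟨⟨x, hx⟩, rfl⟩, hVm ⟨x, hx⟩, hdR n ⟨x, hx⟩⟩
      · exact ⟨_, Or.inl rfl, hx⟩
  have hβ : ∀ x : X, ∃ β : κ.out, (∃ α, x ∈ V (j α)) → x ∈ V (j β) := fun x => by
    by_cases h : ∃ α, x ∈ V (j α)
    · exact ⟨h.choose, fun _ => h.choose_spec⟩
    · exact ⟨hne.some, fun h' => absurd h' h⟩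
  choose β hβ using hβ
  obtain ⟨C, hC, hCβ⟩ := hC2 (β '' ⋃ n, G n) ((countable_iUnion fun n => (hG n).countable).image _)
  have hh : ∀ n, ∃ h : ℕ, ∀ x ∈ G n, ∃ k ≤ h, c ⟨C, hC⟩ k = β x := fun n => by
    have : ∀ x : G n, ∃ k, c ⟨C, hC⟩ k = β x := fun x =>
      hcC ⟨C, hC⟩ (hCβ ⟨x, mem_iUnion.2 ⟨n, x.2⟩, rfl⟩)
    choose k hk using this
    have := (hG n).to_subtype
    obtain ⟨h, hh⟩ := (finite_range k).bddAbove
    exact ⟨h, fun x hx => ⟨k ⟨x, hx⟩, hh ⟨_, rfl⟩, hk _⟩⟩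
  choose h hh using hh
  obtain ⟨w, hw, hwh⟩ : ∃ w ∈ F, ¬ ∀ᶠ n in atTop, w n ≤ h n := by
    by_contra hcon
    push Not at hcon
    exact hF1 ⟨h, hcon⟩
  obtain ⟨γ, hγ⟩ : ∃ γ, m (⟨C, hC⟩, ⟨w, hw⟩, γ) ∉ range (c ⟨C, hC⟩) := by
    by_contra hcon
    push Not at hcon
    have h1 : (univ : Set κ.out).Countable :=
      ((countable_range (c ⟨C, hC⟩)).preimage_of_injOn
        (f := fun γ => m (⟨C, hC⟩, ⟨w, hw⟩, γ))
        (fun a _ b _ hab => by simpa using m.injective hab)).mono fun γ _ => hcon γ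
    rw [← le_aleph0_iff_set_countable, mk_univ, mk_out] at h1
    exact absurd h0 (not_lt.2 h1)
  set p : 𝒞 × F × κ.out := (⟨C, hC⟩, ⟨w, hw⟩, γ) with hp
  obtain ⟨n, hn1, hn2⟩ := ((not_eventually.1 hwh).and_eventually (hSt (j (m p)).1)).exists
  obtain ⟨U, ⟨hU, x, hxU, hxG⟩, hpU⟩ := hn2
  rcases hU with rfl | ⟨d, rfl⟩
  · exact hpU (j (m p)).2
  have hd' : j (m p) = d := Subtype.ext (hVc d _ (j (m p)).2 (subset_closure hpU.1))
  obtain ⟨k, hk, hck⟩ := hh n x hxG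
  refine hxU.2 (mem_biUnion (x := p) hd' (mem_biUnion (x := k) ⟨?_, fun e => hγ ⟨k, e⟩⟩ ?_))
  · show k ≤ w n
    omega
  · show x ∈ closure (V (j (c ⟨C, hC⟩ k)))
    rw [hck]
    exact subset_closure (hβ x ⟨m p, hd' ▸ hxU.1⟩)

theorem result (X : Type u) [TopologicalSpace X] [T3Space X] (hX : SSH X) (D : Set X)
    (hc : IsClosed D) (hd : IsDiscrete D) : #D < Cardinal.lift.{u} lam :=
  main hX hc hd lam_spec.1 lam_spec.2.2

end Pool.Agent.Results.MP_bbbdfa_lc.Bound
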